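import Mathlib
import Pool.Agent.H616R2.SketchAsym

set_option autoImplicit false

namespace Pool.Agent.Results.MP_b89832_lc.NotPolyRelated

open Pool.Agent.Helper12.SketchSep Pool.Agent.H616R2.Sketch Filter

/-- **Result.** Randomized `𝔽₂`-sketch complexity `R^lin(f)` and randomized one-way communication
complexity `R^→(f⁺)` of the XOR function are not even polynomially related; the separation is nearly
the largest possible one. There is a sequence `f_n : {0,1}^n → {0,1}` such that for every `ε > 0`,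
for infinitely many `n`, `R^→(f_n⁺) ≤ n^ε` while `R^lin(f_n) ≥ n^(1-ε)`. In particular the ratio
`R^lin(f_n) / (R^→(f_n⁺) + 1)` is not bounded by any fixed power of `log n`. -/
theorem result :
    ∃ f : (n : ℕ) → (Fin n → ZMod 2) → Bool,
      (∀ ε : ℝ, 0 < ε → ∀ n₀ : ℕ, ∃ n, n₀ ≤ n ∧
        (Rone (xorFn (f n)) : ℝ) ≤ (n : ℝ) ^ ε ∧ (n : ℝ) ^ (1 - ε) ≤ (Rlin (f n) : ℝ)) ∧
      (∀ (C : ℝ) (d n₀ : ℕ), ∃ n, n₀ ≤ n ∧
        C * Real.log n ^ d < (Rlin (f n) : ℝ) / (Rone (xorFn (f n)) + 1)) := by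
  obtain ⟨f, hf⟩ := sep_seq
  refine ⟨f, fun ε hε n₀ => ?_, fun C d n₀ => ?_⟩
  · obtain ⟨n, h1, _, h3, h4⟩ := hf ε hε n₀
    exact ⟨n, h1, h3, h4⟩
  · have hlo := isLittleO_log_rpow_rpow_atTop (s := (1 / 2 : ℝ)) (d : ℝ) (by norm_num)
    have hK : (0 : ℝ) < 1 / (4 * (|C| + 1)) := by positivity
    have h2 := (tendsto_natCast_atTop_atTop (R := ℝ)).eventually (hlo.bound hK)
    obtain ⟨n1, hn1⟩ := Filter.eventually_atTop.1 h2
    obtain ⟨n, hn, hn2, hR, hL⟩ := hf (1 / 4) (by norm_num) (max n₀ n1)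
    refine ⟨n, le_trans (le_max_left _ _) hn, ?_⟩
    have hb := hn1 n (le_trans (le_max_right _ _) hn)
    have hnpos : (0 : ℝ) < n := by
      have : 0 < n := by omega
      exact_mod_cast this
    have hn1' : (1 : ℝ) ≤ n := by
      have : 1 ≤ n := by omega
      exact_mod_cast this
    have hlog : 0 ≤ Real.log (n : ℝ) := Real.log_natCast_nonneg _
    rw [Real.rpow_natCast, Real.norm_of_nonneg (by positivity),
      Real.norm_of_nonneg (by positivity)] at hb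
    rw [lt_div_iff₀ (by positivity)]
    have h14 : (1 : ℝ) ≤ (n : ℝ) ^ (1 / 4 : ℝ) := Real.one_le_rpow hn1' (by norm_num)
    have e1 : (n : ℝ) ^ (1 - 1 / 4 : ℝ) = (n : ℝ) ^ (1 / 2 : ℝ) * (n : ℝ) ^ (1 / 4 : ℝ) := by
      rw [← Real.rpow_add hnpos]; norm_num
    have hC : C * Real.log n ^ d ≤ (n : ℝ) ^ (1 / 2 : ℝ) / 4 := by
      calc C * Real.log n ^ d ≤ (|C| + 1) * Real.log n ^ d :=
            mul_le_mul_of_nonneg_right (by linarith [le_abs_self C]) (by positivity)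
        _ ≤ (|C| + 1) * (1 / (4 * (|C| + 1)) * (n : ℝ) ^ (1 / 2 : ℝ)) :=
            mul_le_mul_of_nonneg_left hb (by positivity)
        _ = _ := by field_simp
    have hpos12 : 0 < (n : ℝ) ^ (1 / 2 : ℝ) := by positivity
    calc C * Real.log n ^ d * (Rone (xorFn (f n)) + 1)
        ≤ (n : ℝ) ^ (1 / 2 : ℝ) / 4 * (Rone (xorFn (f n)) + 1) :=
          mul_le_mul_of_nonneg_right hC (by positivity)
      _ ≤ (n : ℝ) ^ (1 / 2 : ℝ) / 4 * (2 * (n : ℝ) ^ (1 / 4 : ℝ)) :=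
          mul_le_mul_of_nonneg_left (by linarith) (by positivity)
      _ = (n : ℝ) ^ (1 - 1 / 4 : ℝ) / 2 := by rw [e1]; ring
      _ < (n : ℝ) ^ (1 - 1 / 4 : ℝ) := by
          have : 0 < (n : ℝ) ^ (1 - 1 / 4 : ℝ) := by positivity
          linarith
      _ ≤ _ := hL

end Pool.Agent.Results.MP_b89832_lc.NotPolyRelated
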